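import Mathlib
import Pool.Agent.Work.MP_143e72_lc.Main

open SimpleGraph

/-- For every finite graph `F` that contains the path on five vertices as a subgraph (in particular
for `F = P5` and `F = 2 P5`), Subgraph Isomorphism on `F`-subgraph-free graphs is NP-complete. -/
theorem Pool.Agent.Results.MP_143e72_lc.NPComplete.result {V : Type} [Finite V]
    (F : SimpleGraph V) (hF : pathGraph 5 ⊑ F) :
    N793a5b8e.IsCompleteFor N68a2faeb.NP (Pool.Agent.Work.MP_143e72_lc.subIso F) :=
  Pool.Agent.Work.MP_143e72_lc.complete F hF
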